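import Mathlib

open Set Filter Topology TopologicalSpace

namespace Pool.Agent.Results.MP_9b97c3_lc.DoubleJump

/-- The `G`-jump of a relation `E` on `X`. -/
def jump {X : Type} (E : X → X → Prop) (G : Type) [Group G] (α β : G → X) : Prop :=
  ∃ g : G, ∀ h : G, E (α (g⁻¹ * h)) (β h)

/-- Borel reducibility. -/
def BorelRed {X Y : Type} [TopologicalSpace X] [TopologicalSpace Y] (E : X → X → Prop)
    (F : Y → Y → Prop) : Prop :=
  ∃ f : X → Y, @Measurable X Y (borel X) (borel Y) f ∧ ∀ x x', E x x' ↔ F (f x) (f x')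

theorem cont_res {X Y : Type} [TopologicalSpace X] [TopologicalSpace Y]
    [SecondCountableTopology Y] {f : X → Y} (hf : @Measurable X Y (borel X) (borel Y) f) :
    ∃ D ∈ residual X, ContinuousOn f D := by
  borelize X Y
  have h : ∀ b : countableBasis Y, ∃ u, IsOpen u ∧ f ⁻¹' b =ᶠ[residual X] u := fun b =>
    (hf (isOpen_of_mem_countableBasis b.2).measurableSet).residualEq_isOpen
  choose u hu hu' using h
  have := (countable_countableBasis Y).to_subtype
  refine ⟨{x | ∀ b : countableBasis Y, (f ⁻¹' b) x = u b x}, eventually_countable_forall.2 hu', ?_⟩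
  rw [(isBasis_countableBasis Y).continuousOn_iff]
  intro t ht
  refine ⟨u ⟨t, ht⟩, hu _, ?_⟩
  ext x
  exact ⟨fun h => ⟨(h.2 ⟨t, ht⟩).mp h.1, h.2⟩, fun h => ⟨(h.2 ⟨t, ht⟩).mpr h.1, h.2⟩⟩

theorem cyl {H B : Type} [DecidableEq H] [TopologicalSpace B] {N : Set (H → B)} (hN : IsOpen N)
    {p : H → B} (hp : p ∈ N) : ∃ (U : Set (H → B)) (S : Finset H), IsOpen U ∧ p ∈ U ∧ U ⊆ N ∧
      ∀ x ∈ U, ∀ n ∉ S, ∀ t, Function.update x n t ∈ U := by
  obtain ⟨I, u, h1, h2⟩ := isOpen_pi_iff.1 hN p hp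
  refine ⟨_, I, isOpen_set_pi I.finite_toSet fun a ha => (h1 a ha).1, fun a ha => (h1 a ha).2, h2,
    fun x hx n hn t a ha => ?_⟩
  rw [Function.update_of_ne (by rintro rfl; exact hn ha)]
  exact hx a ha

theorem core {X Y G H K : Type} [TopologicalSpace X] [PolishSpace X] [Nonempty X]
    [TopologicalSpace Y] [SecondCountableTopology Y] [T2Space Y] [Group G] [Countable G]
    [MulAction G X] [ContinuousConstSMul G X] [Countable H] [Infinite H] [Countable K]
    (perf : ∀ x : X, Dense ({x}ᶜ : Set X))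
    (trans : ∀ P Q : Set X, IsOpen P → IsOpen Q → P.Nonempty → Q.Nonempty →
      ∃ j : G, ∃ s ∈ P, j • s ∈ Q)
    (T : K → Y → Y) (hT : ∀ k, Continuous (T k)) {f : (H → X) → Y}
    (hf : @Measurable _ _ (borel _) (borel Y) f)
    (h1 : ∀ (x : H → X) (g : H → G), ∃ k, f (fun n => g n • x n) = T k (f x))
    (h2 : ∀ x y, f x = f y → ∀ n, ∃ m, ∃ j : G, x n = j • y m) : False := by
  classical
  letI : TopologicalSpace G := ⊥
  haveI : DiscreteTopology G := ⟨rfl⟩
  haveI : ContinuousSMul G X := ⟨continuous_prod_of_discrete_left.2 fun g => continuous_const_smul g⟩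
  haveI : ContinuousInv G := ⟨continuous_of_discreteTopology⟩
  obtain ⟨D, hD, hc⟩ := cont_res hf
  let e : (H → X) × (H → G) ≃ₜ (H → X) × (H → G) :=
    { toFun := fun p => (fun n => p.2 n • p.1 n, p.2)
      invFun := fun p => (fun n => (p.2 n)⁻¹ • p.1 n, p.2)
      left_inv := fun p => by simp
      right_inv := fun p => by simp
      continuous_toFun := by fun_prop
      continuous_invFun := by fun_prop }
  let a : (H → G) → (H → X) ≃ₜ (H → X) := fun g =>
    { toFun := fun x n => g n • x n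
      invFun := fun x n => (g n)⁻¹ • x n
      left_inv := fun p => by simp
      right_inv := fun p => by simp
      continuous_toFun := by fun_prop
      continuous_invFun := by fun_prop }
  have ra : ∀ g, ∀ E ∈ residual (H → X), a g ⁻¹' E ∈ residual (H → X) := fun g E hE =>
    tendsto_residual_of_isOpenMap (a g).continuous (a g).isOpenMap hE
  let Z : Set ((H → X) × (H → G)) := Prod.fst ⁻¹' D ∩ (Prod.fst ∘ e) ⁻¹' D
  have hZ : Z ∈ residual _ := inter_mem
    (tendsto_residual_of_isOpenMap continuous_fst isOpenMap_fst hD)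
    (tendsto_residual_of_isOpenMap (continuous_fst.comp e.continuous)
      (isOpenMap_fst.comp e.isOpenMap) hD)
  let A : K → Set ((H → X) × (H → G)) := fun k => {p | p ∈ Z ∧ f (e p).1 = T k (f p.1)}
  obtain ⟨k, hk⟩ : ∃ k, (interior (closure (A k))).Nonempty := by
    by_contra hcon
    push Not at hcon
    refine not_isMeagre_of_mem_residual hZ ((isMeagre_iUnion fun k =>
      IsNowhereDense.isMeagre (hcon k)).mono fun p hp => ?_)
    obtain ⟨k, hk⟩ := h1 p.1 p.2
    exact mem_iUnion.2 ⟨k, hp, hk⟩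
  have hA : ∀ p ∈ closure (A k), p ∈ Z → f (e p).1 = T k (f p.1) := by
    intro p hp hpZ
    have c1 : ContinuousWithinAt (fun p => f (e p).1) (A k) p :=
      ((hc.comp (continuous_fst.comp e.continuous).continuousOn
        (fun q (hq : q ∈ Z) => hq.2)) p hpZ).mono fun q hq => hq.1
    have c2 : ContinuousWithinAt (fun p => T k (f p.1)) (A k) p :=
      (((hT k).comp_continuousOn (hc.comp continuous_fst.continuousOn
        (fun q (hq : q ∈ Z) => hq.1))) p hpZ).mono fun q hq => hq.1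
    haveI := mem_closure_iff_nhdsWithin_neBot.1 hp
    exact tendsto_nhds_unique_of_eventuallyEq c1 c2
      (eventually_nhdsWithin_of_forall fun q hq => hq.2)
  obtain ⟨⟨x0, g0⟩, hp⟩ := hk
  obtain ⟨U0, V0, hU0, hV0, hx0, hg0, hUV⟩ := isOpen_prod_iff.1 isOpen_interior x0 g0 hp
  obtain ⟨U, S, hU, hxU, hUU, hS⟩ := cyl hU0 hx0
  obtain ⟨V, S', -, hgV, hVV, hS'⟩ := cyl hV0 hg0
  obtain ⟨n, hn⟩ := Infinite.exists_notMem_finset (S ∪ S')
  rw [Finset.mem_union, not_or] at hn
  have key : ∀ w ∈ U, w ∈ D → ∀ g ∈ V, a g w ∈ D → f (a g w) = T k (f w) := fun w hw hwD g hg h =>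
    hA (w, g) (interior_subset (hUV ⟨hUU hw, hVV hg⟩)) ⟨hwD, h⟩
  let D2 := a g0 ⁻¹' D
  have hD2 : D2 ∈ residual _ := ra g0 D hD
  have hF : ContinuousOn (fun x => f (a g0 x)) D2 :=
    hc.comp (a g0).continuous.continuousOn fun _ h => h
  let sw : (H → X) × X ≃ₜ (H → X) × X :=
    { toFun := fun p => (Function.update p.1 n p.2, p.1 n)
      invFun := fun p => (Function.update p.1 n p.2, p.1 n)
      left_inv := fun p => by simp
      right_inv := fun p => by simp
      continuous_toFun := by fun_prop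
      continuous_invFun := by fun_prop }
  have r1 : (Prod.fst ⁻¹' D2 : Set ((H → X) × X)) ∈ residual _ :=
    tendsto_residual_of_isOpenMap continuous_fst isOpenMap_fst hD2
  have r2 : (Prod.fst ∘ sw) ⁻¹' D2 ∈ residual _ :=
    tendsto_residual_of_isOpenMap (continuous_fst.comp sw.continuous)
      (isOpenMap_fst.comp sw.isOpenMap) hD2
  have r3 : ∀ᶠ p in residual ((H → X) × X), ∀ q : H × G, p.2 ≠ q.2 • p.1 q.1 := by
    refine eventually_countable_forall.2 fun q => residual_of_dense_open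
      (isOpen_ne_fun continuous_snd (by fun_prop)) fun p => ?_
    have := (Continuous.prodMk_right p.1).continuousAt.continuousWithinAt.mem_closure_image
      (perf (q.2 • p.1 q.1) p.2)
    refine closure_mono ?_ this
    rintro _ ⟨t, ht, rfl⟩
    exact ht
  obtain ⟨⟨x, t⟩, hxU, ⟨hx1, hx2⟩, hx3⟩ := (dense_of_mem_residual
    (inter_mem (inter_mem r1 r2) r3)).inter_open_nonempty (Prod.fst ⁻¹' U)
    (hU.preimage continuous_fst) ⟨(x0, Classical.arbitrary X), hxU⟩
  have hx2' : Function.update x n t ∈ D2 := hx2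
  have eq : f (a g0 (Function.update x n t)) = f (a g0 x) := by
    by_contra hne
    obtain ⟨O2, O1, hO2, hO1, m2, m1, hdis⟩ := t2_separation hne
    obtain ⟨N1, hN1, e1⟩ := continuousOn_iff'.1 hF O1 hO1
    obtain ⟨N2, hN2, e2⟩ := continuousOn_iff'.1 hF O2 hO2
    have cu : Continuous fun s => Function.update x n s := by fun_prop
    obtain ⟨j, s, hs1, hs2⟩ := trans ((fun s => Function.update x n s) ⁻¹' (N1 ∩ U))
      ((fun s => Function.update x n s) ⁻¹' N2) ((hN1.inter hU).preimage cu) (hN2.preimage cu)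
      ⟨x n, by
        simp only [mem_preimage, Function.update_eq_self]
        exact ⟨(e1.subset ⟨m1, hx1⟩).1, hxU⟩⟩
      ⟨t, (e2.subset ⟨m2, hx2'⟩).1⟩
    let σ := a (Function.update 1 n j)
    have hσ : σ (Function.update x n s) = Function.update x n (j • s) := by
      funext m
      by_cases h : m = n
      · subst h; simp [σ, a]
      · simp [σ, a, h]
    obtain ⟨w, ⟨⟨w1, wU⟩, w2⟩, ⟨wD, wD2⟩, wσ⟩ := (dense_of_mem_residual
      (inter_mem (inter_mem hD hD2) (ra (Function.update 1 n j) D2 hD2))).inter_open_nonempty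
      ((N1 ∩ U) ∩ σ ⁻¹' N2) ((hN1.inter hU).inter (hN2.preimage σ.continuous))
      ⟨Function.update x n s, hs1, by rw [mem_preimage, hσ]; exact hs2⟩
    have hw : a g0 (σ w) = a (Function.update g0 n (g0 n * j)) w := by
      funext m
      by_cases h : m = n
      · subst h; simp [σ, a, mul_smul]
      · simp [σ, a, h]
    have wσ' : a g0 (σ w) ∈ D := wσ
    have q1 : f (a g0 w) ∈ O1 := (e1.superset ⟨w1, wD2⟩).1
    have q2 : f (a g0 (σ w)) ∈ O2 := (e2.superset ⟨w2, wσ⟩).1
    rw [hw] at q2 wσ'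
    rw [key w wU wD _ (hS' g0 hgV n hn.2 _) wσ', ← key w wU wD g0 hgV wD2] at q2
    exact Set.disjoint_left.1 hdis q2 q1
  obtain ⟨m, j, hj⟩ := h2 _ _ eq n
  refine hx3 (m, (g0 n)⁻¹ * j * g0 m) ?_
  have hj' : g0 n • t = j • g0 m • x m := by simpa [a] using hj
  simp only [mul_smul, ← hj', inv_smul_smul]

theorem result (X : Type) [TopologicalSpace X] [PolishSpace X] [Nontrivial X]
    (G H : Type) [Group G] [Countable G] [Infinite G] [Group H] [Countable H] [Infinite H]
    (K : Type) [Group K] [Countable K] :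
    ¬ BorelRed (jump (jump (Eq : X → X → Prop) G) H) (jump (Eq : X → X → Prop) K) := by
  classical
  rintro ⟨f, hf, hred⟩
  letI : MulAction G (G → X) := arrowAction
  have sm : ∀ (g : G) (α : G → X) (h : G), (g • α) h = α (g⁻¹ * h) := fun _ _ _ => rfl
  haveI : ContinuousConstSMul G (G → X) :=
    ⟨fun g => continuous_pi fun h => continuous_apply (g⁻¹ * h)⟩
  refine core (G := G) (H := H) (K := K) (X := G → X) (Y := K → X) ?_ ?_
    (fun k y h => y (k⁻¹ * h)) (fun k => by fun_prop) hf ?_ ?_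
  · intro x
    rw [dense_iff_inter_open]
    rintro N hN ⟨p, hp⟩
    obtain ⟨U, S, -, hpU, hUN, hS⟩ := cyl hN hp
    obtain ⟨n, hn⟩ := Infinite.exists_notMem_finset S
    obtain ⟨t, ht⟩ := exists_ne (x n)
    exact ⟨_, hUN (hS p hpU n hn t), fun h => ht (by simpa using congrFun h n)⟩
  · rintro P Q hP hQ ⟨p, hp⟩ ⟨q, hq⟩
    obtain ⟨I, u, h1, h2⟩ := isOpen_pi_iff.1 hP p hp
    obtain ⟨J, v, h3, h4⟩ := isOpen_pi_iff.1 hQ q hq
    obtain ⟨j, hj⟩ := Infinite.exists_notMem_finset ((J ×ˢ I).image fun c => c.1 * c.2⁻¹)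
    refine ⟨j, fun h => if h ∈ I then p h else q (j * h), h2 fun c hc => ?_, h4 fun c hc => ?_⟩
    · simp only [Finset.mem_coe.1 hc, if_true]; exact (h1 c hc).2
    · rw [sm, if_neg, mul_inv_cancel_left]
      · exact (h3 c hc).2
      · exact fun h => hj (Finset.mem_image.2 ⟨(c, j⁻¹ * c), Finset.mem_product.2 ⟨hc, h⟩, by simp⟩)
  · intro x g
    obtain ⟨k, hk⟩ := (hred x fun n => g n • x n).1 ⟨1, fun n => ⟨g n, fun h => by simp [sm]⟩⟩
    exact ⟨k, funext fun h => (hk h).symm⟩
  · intro x y h n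
    obtain ⟨g, hg⟩ := (hred y x).2 ⟨1, fun c => by simp [h]⟩
    obtain ⟨j, hj⟩ := hg n
    exact ⟨_, j, funext fun c => (hj c).symm⟩

end Pool.Agent.Results.MP_9b97c3_lc.DoubleJump
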